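import Pool.Agent.Lib.MP_9cec2c_lc.RFFinal

/-!
The pigeonhole principle in random Frege systems of constant depth with counting gates modulo a
prime `p`: exponential lower bounds for every prime `p`, every finite set of sound rules, every
depth and almost every success probability.

The proof. Let `q` be a power of `p` and consider the injections of `b` holes into `b + q` pigeons.
Let `F D` be the space of the functions of degree at most `D` on these points, with values in the
field with `p` elements, and `Y D` the sum of the products of the functions in `F (D - 1)` with the
indicators of the events that a given pigeon has no hole. Modulo the spaces `Y D` all clauses of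
the pigeonhole principle act as zero, where a function of degree `e` moves a level `e` steps up.
The dimensions of `F D / Y D` are computed by straightening: as the binomial coefficients
`q choose a` vanish modulo `p` for `0 < a < q`, the quotient is spanned by `q` consecutive layers of
monomials without stars which satisfy conditions on their longest increasing subsequences, and up
to few exceptions they are independent. The layers are counted by pairs of standard tableaux
with a given first row. At the maximum of this number, tilted by an exponential factor, the
dimensions of many consecutive quotients agree up to a polynomial factor, and the map from the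
quotient of a level to that of a higher level is almost injective. Estimates for the exponential
moments of the first rows under the Plancherel measure show that the exceptions are rare. Random
polynomials in the style of Razborov and Smolensky then replace the disjunctions of a short
derivation of constant depth, and its last line would act as zero on a vector that is not zero.
For many pigeons one uses copies of the same small world.

The random version. Match all pigeons and holes outside of the small copies in a random way. A
counting argument shows that, up to an error smaller than the success probability, whenever a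
random matching satisfies all further clauses of a random refutation, its restriction satisfies
each of them whatever happens inside of the copies. So one outcome of the random refutation is
a short refutation of the clauses of the pigeonhole principle and of clauses which act as zero.
-/

set_option autoImplicit false

namespace Pool.Agent.Results.MP_9cec2c_lc.PigeonholeFrege

open Pool.Agent.MP_9cec2c_lc.FG Pool.Agent.MP_9cec2c_lc.PF Pool.Agent.MP_9cec2c_lc.RF

/-- There is a random refutation of the clauses `F` by the rules in `S` which has depth at most
`d`, size at most `s` and success probability at least `ε`: lists `Δ i` of further clauses, where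
`i` is drawn from a finite set with the probabilities `μ i`, such that every assignment satisfies
all clauses in `Δ i` with probability at least `ε`, and for every `i` of positive probability
a refutation of `F` together with `Δ i`, of depth at most `d` and size at most `s`. -/
def RandomRefutes (S : Set Rule) (d : ℕ) {V : Type} (F : List (List (V × Bool))) (ε s : ℝ) :
    Prop :=
  ∃ (ι : Type) (_ : Fintype ι) (μ : ι → ℝ) (Δ : ι → List (List (V × Bool))),
    (∀ i, 0 ≤ μ i) ∧ ∑ i, μ i = 1 ∧ (∀ x : V → Bool, ε ≤ prob μ Δ x) ∧
    ∀ i, 0 < μ i → ∃ (l : ℕ) (L : Fin l → Form V), Refutes S d (F ++ Δ i) L ∧ (size L : ℝ) ≤ s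

/-- Let `p` be a prime, `S` a finite set of sound rules for formulas with negations, conjunctions
and disjunctions of any number of formulas and counting gates modulo `p`, and `δ > 0`. There are
`c > 0` and `m₀` such that for all `m ≥ m₀` and all `M > m` the clauses of the functional
pigeonhole principle with `M` pigeons and `m` holes are contradictory, and in every depth `d` every
random refutation of the clauses by the rules in `S` with success probability at least
`(M - m) m ^ (δ - 1)` has size at least `exp (c m ^ (c / (d + 1)))`. In particular, if
`M ≤ m + m ^ (1 - δ)`, every refutation of the clauses and every proof of the negation of their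
conjunction by the rules in `S` has at least this size. The size is the number of lines plus the
number of different subformulas of the lines. -/
theorem result (p : ℕ) [Fact p.Prime] (S : Set Rule) (hS : S.Finite)
    (hsound : ∀ R ∈ S, R.Sound p) (δ : ℝ) (hδ : 0 < δ) :
    ∃ c : ℝ, 0 < c ∧ ∃ m₀ : ℕ, ∀ m ≥ m₀, ∀ M : ℕ, m < M →
      (∀ x : Fin M × Fin m → Bool, ∃ D ∈ fphp M m, ∀ l ∈ D, x l.1 ≠ l.2) ∧
      (∀ (d : ℕ) (s : ℝ), RandomRefutes S d (fphp M m) (((M : ℝ) - m) * (m : ℝ) ^ (δ - 1)) s →
        Real.exp (c * (m : ℝ) ^ (c / (d + 1))) ≤ s) ∧
      ((M : ℝ) ≤ m + (m : ℝ) ^ (1 - δ) → ∀ (d l : ℕ) (L : Fin l → Form (Fin M × Fin m)),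
        Refutes S d (fphp M m) L → Real.exp (c * (m : ℝ) ^ (c / (d + 1))) ≤ size L) := by
  classical
  obtain ⟨c, hc, m₀, h⟩ := random_hard p hS hsound hδ
  have key : ∀ m ≥ max m₀ 1, ∀ M : ℕ, m < M → ∀ (d : ℕ) (s : ℝ),
      RandomRefutes S d (fphp M m) (((M : ℝ) - m) * (m : ℝ) ^ (δ - 1)) s →
        Real.exp (c * (m : ℝ) ^ (c / (d + 1))) ≤ s := by
    rintro m hm M hM d s ⟨ι, _, μ, Δ, hμ, hsum, hΔ, hL⟩
    have h1 : ∀ i, ∃ (l : ℕ) (L : Fin l → Form (Fin M × Fin m)), 0 < μ i →
        Refutes S d (fphp M m ++ Δ i) L ∧ (size L : ℝ) ≤ s := by
      intro i
      by_cases hi : 0 < μ i
      · obtain ⟨l, L, h2⟩ := hL i hi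
        exact ⟨l, L, fun _ => h2⟩
      · exact ⟨0, Fin.elim0, fun h2 => absurd h2 hi⟩
    choose l L hlL using h1
    obtain ⟨i, hi, h2⟩ := h m ((le_max_left _ _).trans hm) M hM ι μ Δ hμ hsum hΔ d l L
      fun i hi => (hlL i hi).1
    exact h2.trans (hlL i hi).2
  refine ⟨c, hc, max m₀ 1, fun m hm M hM => ⟨fphp_unsat hM, key m hm M hM,
    fun hM' d l L hL => key m hm M hM d _ ⟨Unit, inferInstance, fun _ => 1, fun _ => [],
      fun _ => zero_le_one, by simp, fun x => ?_, fun _ _ => ⟨l, L, ?_, le_rfl⟩⟩⟩⟩
  · have hm0 : (0 : ℝ) < m := by
      have : 1 ≤ m := (le_max_right _ _).trans hm
      exact_mod_cast this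
    have h1 : prob (fun _ : Unit => (1 : ℝ)) (fun _ => []) x = 1 := by
      unfold prob
      simp
    rw [h1]
    calc ((M : ℝ) - m) * (m : ℝ) ^ (δ - 1) ≤ (m : ℝ) ^ (1 - δ) * (m : ℝ) ^ (δ - 1) :=
          mul_le_mul_of_nonneg_right (by linarith) (by positivity)
      _ = 1 := by
          rw [← Real.rpow_add hm0]
          have h2 : 1 - δ + (δ - 1) = 0 := by ring
          rw [h2, Real.rpow_zero]
  · rw [List.append_nil]
    exact hL

end Pool.Agent.Results.MP_9cec2c_lc.PigeonholeFrege
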