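import Pool.Agent.Lib.MP_9cec2c_lc.LOFinal
import Pool.Agent.Lib.MP_9cec2c_lc.LOLine

/-!
Random CNFs need dag-like refutations of size `2 ^ Ω(n)`, if each line is equivalent to few
inequalities that have few subfunctions with respect to one of several orders of the variables, also
with all cuts of polynomial dimension. This contains dag-like Lovász-Schrijver refutations, and
dag-like refutations with ordered binary decision diagrams in several orders.
-/

set_option autoImplicit false

namespace Pool.Agent.Results.MP_9cec2c_lc.SeveralOrders

open Pool.Agent.MP_9cec2c_lc.LovSch

/-- Call a set `Q` of orders of the variables `D`-separated if there are two disjoint sets of at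
least `n / D` variables such that, in each order in `Q`, all variables in one of these sets are
before all variables in the other one. (1) All sets of at most `l` orders are `2 ^ l`-separated, for
`l ≥ 1`; and for example all orders in which every variable of one fixed set of `n / D` variables is
before every variable of another fixed set are together `D`-separated.

A line is narrow for an order if, for every `t` between `n / D` and `n - n / D`, it is equivalent to
at most `k` inequalities `0 ≤ f + g`, where `f` is a real function with at most `R` subfunctions
obtained by fixing the first `t` variables in this order, and `g` is a real function with at most
`k` subfunctions obtained by fixing the other variables. (2) The disjunction of a property with at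
most `R` subfunctions at each initial segment of the order and of a linear inequality with real
coefficients is narrow.

(3) There is a constant `C` such that the following holds for `D ≥ 2`, `K = D ^ C`, `K ≤ n ≤ k`,
`K * log2 k ≤ w ≤ n / K` and `n * 2 ^ w ≤ m ≤ (2 + 1 / (D - 1)) ^ w`. (For constant `D` and
`k = n ^ c` one can take `w = O(log n)`; with `w = n ^ 0.1` all `D ≤ n ^ c'` are possible, in
particular `c' * log2 n` arbitrary orders.) Consider random CNFs in `n` variables with `m` clauses,
chosen independently and uniformly among the clauses with `w` literals on distinct variables. All
but a fraction `2 ^ (- w / K)` of them are unsatisfiable, and for all `D`-separated sets `Q` of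
orders, all their refutations of the following kind have `S * R ≥ 2 ^ (n / K)`, where `S` is the
number of lines.

The lines `L i` are arbitrary properties of assignments, and some line is false everywhere. Each
line is implied by a clause of the CNF, or by at most `k` earlier lines, each of which is narrow for
at least one of the orders, or it is a cut of dimension at most `k`, which may use any number of
such lines, and products of up to `k` of them. For one of the orders, it may also be derived in this
way on each subcube obtained by fixing the first `n / D` variables in this order, from earlier lines
that are narrow for this order.

Examples of narrow lines for an order: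
* linear inequalities with arbitrary real coefficients, for all orders, also with `R = 1`, and
  conjunctions of `k` of them; so the lines of dag-like Lovász-Schrijver refutations;
* disjunctions of a clause, of `C` counting conditions `∑ v, c v * x v ∈ T` with integers `c v`
  between `-k` and `k` and any set `T`, and of a linear inequality, for all orders, if
  `2 * (2 * n * k + 1) ^ C ≤ R`;
* properties with an ordered binary decision diagram in this order with at most `R` nodes on each
  level, and disjunctions of such a property and of a linear inequality; also the sum of the real
  weights on the path of an assignment in such a diagram is nonnegative;
* properties whose negation has a nondeterministic communication protocol with `log2 k` bits, if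
  one player has the first `t` variables and the other one has the other variables, for all these
  `t` (`R = 2`); for example decision diagrams of width `w'` that read the variables `p` times in
  this order, if `w' ^ (2 * p) ≤ k`.
So dag-like refutations with ordered binary decision diagrams in these orders are a special case,
with all sound inferences from at most `k` lines, also between different orders, as conjunction,
weakening and reordering. If `L i` and the `L j` are linear forms, all lines are inequalities
`0 ≤ L i`, and `L i = g + ∑ T, g T * ∏ j ∈ T, L j` on the cube, where `T` ranges over sets of
earlier lines, `g` and the `g T` are nonnegative functions and each `g T * ∏ j ∈ T, L j` is a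
polynomial of degree at most `d` on the cube, then `L i` is a cut of dimension at most
`(n + 1) ^ d` (take `h T = g T * ∏ j ∈ T, L j`). With `d = 2` and `T = {j}` these are the steps of
dag-like Lovász-Schrijver refutations, LS and LS+; quadratic lines are not even counted here. -/
theorem result :
    (∀ (l n : ℕ) (Q : Set (Equiv.Perm (Fin n))), 0 < l → Q.ncard ≤ l → Separated (2 ^ l) Q) ∧
    (∀ (n D k R : ℕ) (π : Equiv.Perm (Fin n)) (P : (Fin n → Bool) → Prop) (a : Fin n → ℝ) (b : ℝ),
      0 < k → FewSub R π P → Narrow D k R π fun x => P x ∨ b ≤ ∑ v, if x v then a v else 0) ∧
    ∃ C : ℕ, ∀ D n k w m K : ℕ, 2 ≤ D → K = D ^ C → K ≤ n → n ≤ k → k ^ K ≤ 2 ^ w →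
      K * w ≤ n → n * 2 ^ w ≤ m → (m : ℝ) ≤ (2 + 1 / (D - 1)) ^ w →
      2 ^ (w / K) * {f : ClauseList n m w | ¬ OHard D k (2 ^ (n / K)) (toCNF f)}.ncard ≤
        Fintype.card (ClauseList n m w) :=
  ⟨fun _ _ _ hl hQ => separated_of_ncard hl hQ,
    fun _ D _ _ _ _ a b hk hP => fewSub_narrow D hk hP a b, random_orders⟩

end Pool.Agent.Results.MP_9cec2c_lc.SeveralOrders
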