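import Pool.Agent.Lib.MP_9cec2c_lc.SZ.Rand

/-!
The size of refutations in resolution over parities, and more generally over polynomial equations,
and the degree in the polynomial calculus: the relation that is known for resolution and the
polynomial calculus holds when the lines are disjunctions of linear equations modulo 2, disjunctions
of equations of degree at most `t` over any finite field, or linear combinations of conjunctions of
such equations. In particular random CNFs need exponential size.

The main idea. Let `K` be a field with `q` elements and let `J` be the space of the functions on the
cube that the polynomial calculus derives in degree `D`. A term `T` is a conjunction of equations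
`g = 0` of degree at most `t`; let `L` be the span of the functions `g`. Consider the rank of the
multiplication by a function, as a map from the functions of degree `e + 2 t` to the functions modulo
`J`. If the elements of a basis of `L` are multiplied by `1 - l ^ (q - 1)` for a suitable `l` in `L`,
then the sum of their ranks drops by a factor `((e + 1) ^ t + 2 n ^ t) / (2 ((e + 1) ^ t + n ^ t))`.
This is the argument of Razborov and Smolensky modulo `J`, and nothing has to be known about `J` but
that it is closed under products up to degree `D`. After `k` steps the sum of the ranks for all terms
together is smaller than the rank of the multiplication by 1. So there is a function `f` of degree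
`e + 2 t` outside of `J` such that `f l P_T` is in `J` for each term `T` and all `l` in its space
`L`, where `P_T` is the product of its `k` functions `1 - l_i ^ (q - 1)`.

It follows that the functions `f P_T` satisfy modulo `J` all local identities that hold for the
indicator functions of the terms, and that the functions `f P_T P_T'` and `f P_(T ∧ T')` are equal
modulo `J`. So `f ∑ c_T P_T` is in `J` for each derived line `∑ c_T T = 0`. The last line is `1 = 0`,
but `f` is not in `J`, a contradiction. The disjunctions of equations `f = 0` are the negations of the
terms with the equations `1 - f ^ (q - 1) = 0`.

In resolution over parities semantic inferences are allowed. If an affine space is contained in the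
union of `r` affine spaces, then one of them contains a subspace of codimension less than `r`. So case
distinctions by few affine functions give certificates of degree `r ^ 2 + 1`.

Random CNFs need linear degree in the polynomial calculus over every field (Ben-Sasson and
Impagliazzo, Alekhnovich and Razborov). This is proved here again, with the operator of Alekhnovich
and Razborov.
-/

set_option autoImplicit false

namespace Pool.Agent.Results.MP_9cec2c_lc.SizeDegree

open Pool.Agent.MP_9cec2c_lc.SZ

/-- Size and degree. Let `F` be a CNF in `n` variables with clauses of width at most `w`.

(1) Resolution over parities. If the polynomial calculus modulo 2 has no refutation of `F` of degree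
`D`, then every refutation of `F` whose lines are disjunctions of linear equations modulo 2, each
implied by a clause of `F` or by at most `r` earlier lines, has at least
`2 ^ ((D - (w + r ^ 2 + 4)) ^ 2 / (40 * n)) / (n + 1)` lines.

(2) Let `K` be a finite field, `q` the number of its elements, `t ≥ 1` and `T = (q - 1) * t`. Suppose
that the polynomial calculus over `K` has no refutation of `F` of degree `D`.

Every refutation of `F` whose lines are disjunctions of any number of equations of degree at most `t`
over `K`, with local inferences, has at least
`2 ^ ((D - (w + (w + r + r ^ 2 + 3) * T)) ^ (T + 1) / (32 * (q - 1) * T * (2 * n) ^ T)) / (n + 1) ^ T`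
lines.

In every refutation of `F` in the polynomial calculus over terms, which are conjunctions of any number
of equations of degree at most `t` over `K`, there are at least
`2 ^ ((D - (w + 3 * t + (w + r) * T)) ^ (t + 1) / (48 * T * (2 * n) ^ t)) / (n + 1) ^ t`
different terms, whatever the number of lines.

(3) Random CNFs. For a finite field `K` and numbers `w ≥ 3`, `r`, `Δ` there is `M` such that for all
`n` and `2 ^ w * n ≤ m ≤ Δ * n` all but a fraction `M / n` of the CNFs with `m` clauses of width `w` in
`n` variables are unsatisfiable and have only refutations with at least `2 ^ (n / M)` lines in
resolution over parities, and for all `t ≥ 1` at the same time only refutations with at least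
`2 ^ (n / M ^ t)` lines, or different terms, in the two systems of (2). -/
theorem result :
    (∀ (n w r S D : ℕ) (F : Finset (Clause n)), (∀ C ∈ F, C.card ≤ w) →
      (¬ PC (ZMod 2) F D 1 → Nonempty (ParityRefutation F r S) →
        2 ^ ((D - (w + r ^ 2 + 4)) ^ 2 / (40 * n)) ≤ (n + 1) * S) ∧
      ∀ (K : Type) [Field K] [Fintype K] (t T : ℕ), 1 ≤ t → T = (Fintype.card K - 1) * t →
        ¬ PC K F D 1 →
        (Nonempty (PolyRefutation K F t r S) →
          2 ^ ((D - (w + (w + r + r ^ 2 + 3) * T)) ^ (T + 1) /
            (32 * ((Fintype.card K - 1) * T) * (2 * n) ^ T)) ≤ (n + 1) ^ T * S) ∧
        (TermRefutable K F t r S →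
          2 ^ ((D - (w + 3 * t + (w + r) * T)) ^ (t + 1) / (48 * T * (2 * n) ^ t)) ≤
            (n + 1) ^ t * S)) ∧
    ∀ (K : Type) [Field K] [Fintype K] (w r Δ : ℕ), 3 ≤ w → ∃ M : ℕ, 0 < M ∧
      ∀ n m : ℕ, n * 2 ^ w ≤ m → m ≤ Δ * n →
        n * {f : ClauseList n m w | ¬ Hard K r M (toCNF f)}.ncard ≤
          M * Fintype.card (ClauseList n m w) := by
  refine ⟨fun n w r S D F hw => ⟨fun hPC ⟨π⟩ => parity_size hw hPC π, ?_⟩,
    fun K _ _ w r Δ hw => random_hard K w r Δ hw⟩
  intro K _ _ t T ht hT hPC
  refine ⟨fun ⟨π⟩ => poly_size hw hT ht hPC π, fun hS => ?_⟩
  rw [hT]
  exact term_size hw ht hPC hS

end Pool.Agent.Results.MP_9cec2c_lc.SizeDegree
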