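import Pool.Agent.Lib.MP_9cec2c_lc.MXEasy
import Pool.Agent.Lib.MP_9cec2c_lc.MXCQ
import Pool.Agent.Lib.MP_9cec2c_lc.TYHier
import Pool.Agent.Lib.MP_9cec2c_lc.FN9

/-!
Tseitin formulas in Frege systems of constant depth with counting gates modulo primes. The proofs may
be mixed: the counting gates of one line count modulo one prime, but different lines may count modulo
different primes from a finite set `Q`, and lines without counting gates can be used together with
all of them. If some `q ∈ Q` divides the order of the total charge, the Tseitin formulas have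
refutations of depth 4 and polynomial size. Otherwise every family of connected graphs of bounded
degree needs size exponential in a power of the treewidth, and there are refutations without counting
gates whose size is exponential in a power of the treewidth that is small for large depth.

The main idea of the lower bound. Call a world a vector space over a field of characteristic `p` with
an increasing sequence of subspaces (levels) on which the functions of the propositional variables
act: a function of degree `e` moves a level `e` steps up, and products of functions act as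
compositions, until the top is reached. If the falsity of the clauses acts as zero on the bottom
level and the dimensions of all levels agree up to a constant factor, then a derivation of constant
depth must be large: random polynomials in the style of Razborov and Smolensky replace the
disjunctions, and the part of the bottom level on which the approximation of a disjunction fails is
found to be small by a potential made of ranks on all levels. No restrictions and no points of the
cube are used.

For the complete graph `K_N` such a world of height `N ^ c` comes from random matrices. Let `r` be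
prime to `p`. The world consists of functions `f (H, ψ)`, where `H` is an `N × N` Hermitian matrix
whose entries off the diagonal are roots of unity of order `m`, for a certain multiple `m` of `r`, and
whose top eigenvalue is well separated, and `ψ` is a unit top eigenvector, whose phase is fixed up to
a root of unity of order `r` by the condition that a certain form of degree `r` is positive on `ψ`.
The functions satisfy `f (D H D⁻¹, D ψ) = ω ^ (s v) f (H, ψ)` for the change of phase `D` by a root of
unity of order `r` at each vertex `v`. An edge variable acts by such a change of an entry of `H`, a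
sum of edges at a vertex by such a change of a part of a row, and the new eigenvector is the one
close to the old one. The product of all changes of phase maps `(H, ψ)` to `(H, ζ ψ)`, therefore the
sum of the charges need not vanish. For most matrices the top eigenvector is robust under `N ^ c`
changes of rows, and then the falsity of every clause acts as zero.

For mixed proofs the worlds of all characteristics are used at once. They have the same basis and
come from one action over the ring of integers of a cyclotomic field `K`; the level of a world is the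
reduction of a lattice. A line modulo `q` is true up to a small part of the world over the residue
field of a prime ideal over `q`. A line without counting gates is moved from one characteristic to
another through `K`: its failure is a rank, which cannot grow when it is reduced, and which is small
in characteristic 0 if it is small for one `q`, because the approximation of a formula without
counting gates can be chosen with integer coefficients for all characteristics at once.

This world is carried over to a connected graph `G` of bounded degree and treewidth at least `w`. The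
graph has a well linked set of more than `w / 3` vertices. The vertices of the complete graph (with
paths for the partial sums at its vertices) are placed in this set, and every edge is replaced by an
integral flow through `G`, such that every edge of `G` is used at most `O (log |E|)` times. The value
of an edge of `G` is the sum of the values of the variables whose flows use it; an equation of a
vertex of `G` then involves few equations of the complete graph. If the number of edges exceeds
`exp (w ^ c)`, the bound is trivial, because every refutation uses a clause of every vertex.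

The short refutations come from the partition principle in which every edge has `r` points at each of
its two ends and every vertex `v` has `s v` more points: if the edge `e` has the value `a`, then its
block consists of the first `a` points at its source and the last `r - a` points at its target. The
disjunction of several Tseitin formulas is refuted by refutations with side formulas, one formula
after the other. The refutations without counting gates follow an order of the vertices in which all
cuts are small; their lines say what the sum of the values of the edges of a cut is, by formulas that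
compute the sum by divide and conquer.
-/

set_option autoImplicit false

namespace Pool.Agent.Results.MP_9cec2c_lc.TseitinTreewidth

open Pool.Agent.MP_9cec2c_lc.FG
open Pool.Agent.MP_9cec2c_lc.TT
open Pool.Agent.MP_9cec2c_lc.MX

/-- Consider propositional formulas with negations, conjunctions and disjunctions of any number of
formulas and counting gates, which count modulo a prime.

(1) For every prime `q` there is a finite set `S₀ q` of rules, sound when counting modulo `q` and
implicationally complete, without an increase of the depth by more than 1, with the properties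
(a)-(e).

(a) If `q` divides the order of the total charge, `S₀ q` refutes the Tseitin formulas modulo `r` of
all multigraphs of degree at most `Δ` in depth 4 and polynomial size.

(b) The Tseitin formulas modulo `r` of multigraphs of degree at most `Δ` that have a tree
decomposition with bags of at most `w` vertices have, for all `D ≥ 1`, refutations without counting
gates, by the rules `S₀ q` for all `q` at once, of depth `2 D + 1` and size at most
`(|V| + |E| + 2) ^ C * exp (C (D + (w log (|V| + 2)) ^ (1 / D)))`.

(c) A family of Tseitin formulas modulo `r` of connected multigraphs of degree at most `Δ` with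
nonzero total charges has mixed refutations with the primes in `Q` of constant depth and polynomial
size if and only if for some `C` each member has a total charge whose order is divisible by some
`q ∈ Q` or a tree decomposition with bags of at most `(log₂ (|V| + |E| + 2) + 1) ^ C` vertices. This
holds for all finite sets of sound rules that contain `S₀ q`.

(d) The disjunctions `allCNF` of the Tseitin formulas of multigraphs of degree at most `Δ` modulo the
numbers `r j` have mixed refutations with the primes in `Q` by the rules `S₀ q` in depth 5 and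
polynomial size, if the order of every total charge is divisible by some `q ∈ Q`.

(e) For all finite sets of sound rules, all depths `d` and all `K` there is `d'` such that the Tseitin
formulas modulo `r` of large tori, if their total charges are not zero and have orders prime to all
`q ∈ Q`, have refutations without counting gates, by the rules `S₀ q` for all `q` at once, of depth
`d'` and some size `n`, but mixed refutations of depth `d` only of size at least
`exp ((log n) ^ K)`.

(2) Let `Q` be a finite set of primes and let `S q` be a finite set of rules that are sound when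
counting modulo `q`, for `q ∈ Q`. There is `c > 0` such that for every connected multigraph
of degree at most `Δ` without a tree decomposition with bags of at most `w` vertices, and for all
charges of its vertices modulo `r` whose sum is not zero and has an order prime to all `q ∈ Q`, the
following holds for every CNF `F` of width at most `B` whose clauses contain clauses of the Tseitin
formula modulo `r`: in every depth `d` every mixed refutation of the clauses of `F` and every mixed
proof of the negation of `F` with the primes in `Q` by the rules `S q`, in particular every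
refutation and proof by the rules `S q` for one `q ∈ Q`, has size at least
`exp (c w ^ (c / (d + 1)))`.

(3) The same holds for the formulas `allCNF` whose total charges are not zero, if the order of one of
them is prime to all `q ∈ Q`. So for distinct primes `r j` their disjunction is easy if all `r j` are
in `Q`, and hard otherwise.

(4) The Tseitin formulas and their disjunctions are unsatisfiable and of polynomial size and bounded
width, and (2) applies to the Tseitin formulas.

(5) The `N × N` torus is connected, has degree 4 and no tree decomposition with bags of less than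
`N` vertices. -/
theorem result :
    (∃ S₀ : ℕ → Set Rule, (∀ q : ℕ, q.Prime → (S₀ q).Finite ∧ (∀ R ∈ S₀ q, R.Sound q) ∧
      (∀ (V : Type) [Fintype V] (Φ : Set (Form V)) (φ : Form V) (d : ℕ),
        (∀ ψ ∈ Φ, ψ.Small q ∧ ψ.depth + 1 ≤ d) → φ.Small q → φ.depth + 1 ≤ d →
        (∀ x : V → Bool, (∀ ψ ∈ Φ, ψ.eval q x) → φ.eval q x) →
        ∃ (l : ℕ) (L : Fin l → Form V), IsDerivation (S₀ q) d Φ L ∧ ∃ i, L i = φ) ∧
      ∀ (r Δ : ℕ) [NeZero r], ∃ C : ℕ, ∀ (V E : Type) [Fintype V] [Fintype E] [DecidableEq V]
        [DecidableEq E] (src tgt : E → V), (∀ v, (inc src tgt v).card ≤ Δ) →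
        ∀ s : V → ZMod r, q ∣ addOrderOf (∑ v, s v) →
        ∃ (l : ℕ) (L : Fin l → Form (E × ZMod r)),
          IsDerivation (S₀ q) 4 {φ | ∃ D ∈ tseitinCNF src tgt r s, φ = clause D} L ∧
          (∃ i, L i = falsum) ∧ size L ≤ (Fintype.card V + Fintype.card E + 2) ^ C) ∧
      (∀ (r Δ : ℕ) [NeZero r], ∃ C : ℕ, ∀ (V E : Type) [Fintype V] [Fintype E]
        [DecidableEq V] [DecidableEq E] (src tgt : E → V), (∀ v, (inc src tgt v).card ≤ Δ) →
        ∀ w : ℕ, HasTreeDec src tgt w → ∀ s : V → ZMod r, ∑ v, s v ≠ 0 → ∀ D : ℕ, 1 ≤ D →
        ∃ (l : ℕ) (L : Fin l → Form (E × ZMod r)), (∀ q : ℕ, q.Prime →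
          IsDerivation (S₀ q) (2 * D + 1) {φ | ∃ C ∈ tseitinCNF src tgt r s, φ = clause C} L) ∧
          (∃ i, L i = falsum) ∧ (∀ i, CountFree (L i)) ∧
          (size L : ℝ) ≤ ((Fintype.card V + Fintype.card E + 2 : ℕ) : ℝ) ^ C *
            Real.exp (C * (D + (w * Real.log (Fintype.card V + 2)) ^ ((1 : ℝ) / D)))) ∧
      (∀ Q : Finset ℕ, Q.Nonempty → (∀ q ∈ Q, q.Prime) → ∀ S : ℕ → Set Rule,
        (∀ q ∈ Q, (S q).Finite ∧ S₀ q ⊆ S q ∧ ∀ R ∈ S q, R.Sound q) →
        ∀ (r Δ : ℕ) [NeZero r] (ι : Type) (V E : ι → Type) [∀ n, Fintype (V n)]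
          [∀ n, Fintype (E n)] [∀ n, DecidableEq (V n)] [∀ n, DecidableEq (E n)]
          (src tgt : ∀ n, E n → V n), (∀ n, Connected (src n) (tgt n)) →
          (∀ n v, (inc (src n) (tgt n) v).card ≤ Δ) → ∀ s : ∀ n, V n → ZMod r,
          (∀ n, ∑ v, s n v ≠ 0) →
          ((∃ d C : ℕ, ∀ n, ∃ (l : ℕ) (τ : Fin l → ℕ) (L : Fin l → Form (E n × ZMod r)),
            IsMixed Q S d {φ | ∃ D ∈ tseitinCNF (src n) (tgt n) r (s n), φ = clause D} τ L ∧
            (∃ i, L i = falsum) ∧
            size L ≤ (Fintype.card (V n) + Fintype.card (E n) + 2) ^ C) ↔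
          ∃ C : ℕ, ∀ n, (∃ q ∈ Q, q ∣ addOrderOf (∑ v, s n v)) ∨
            HasTreeDec (src n) (tgt n)
              ((Nat.log 2 (Fintype.card (V n) + Fintype.card (E n) + 2) + 1) ^ C))) ∧
      (∀ Q : Finset ℕ, Q.Nonempty → (∀ q ∈ Q, q.Prime) →
        ∀ (J : Type) [Fintype J] [DecidableEq J] (r : J → ℕ) [∀ j, NeZero (r j)] (Δ : ℕ),
        ∃ C : ℕ, ∀ (V E : Type) [Fintype V] [Fintype E] [DecidableEq V] [DecidableEq E]
        (src tgt : E → V), (∀ v, (inc src tgt v).card ≤ Δ) →
        ∀ s : ∀ j, V → ZMod (r j), (∀ j, ∃ q ∈ Q, q ∣ addOrderOf (∑ v, s j v)) →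
        ∃ (l : ℕ) (τ : Fin l → ℕ) (L : Fin l → Form (Σ j, E × ZMod (r j))),
          IsMixed Q S₀ 5 {φ | ∃ D ∈ allCNF src tgt r s, φ = clause D} τ L ∧
          (∃ i, L i = falsum) ∧ size L ≤ (Fintype.card V + Fintype.card E + 2) ^ C) ∧
      ∀ Q : Finset ℕ, (∀ q ∈ Q, q.Prime) → ∀ S : ℕ → Set Rule, (∀ q ∈ Q, (S q).Finite) →
        (∀ q ∈ Q, ∀ R ∈ S q, R.Sound q) → ∀ (r : ℕ) [NeZero r] (d K : ℕ),
        ∃ d' N₀ : ℕ, ∀ (N : ℕ) [NeZero N], N₀ ≤ N → ∀ s : ZMod N × ZMod N → ZMod r,
        ∑ v, s v ≠ 0 → (∀ q ∈ Q, Nat.Coprime q (addOrderOf (∑ v, s v))) →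
        ∃ (l : ℕ) (L : Fin l → Form (((ZMod N × ZMod N) × Bool) × ZMod r)),
          (∀ q : ℕ, q.Prime → IsDerivation (S₀ q) d'
            {φ | ∃ C ∈ tseitinCNF (torusSrc N) (torusTgt N) r s, φ = clause C} L) ∧
          (∃ i, L i = falsum) ∧ (∀ i, CountFree (L i)) ∧
          ∀ (l' : ℕ) (τ : Fin l' → ℕ)
            (L' : Fin l' → Form (((ZMod N × ZMod N) × Bool) × ZMod r)),
            MixedRefutes Q S d (tseitinCNF (torusSrc N) (torusTgt N) r s) τ L' →
            Real.exp (Real.log (size L) ^ K) ≤ size L') ∧
    (∀ Q : Finset ℕ, (∀ q ∈ Q, q.Prime) → ∀ S : ℕ → Set Rule, (∀ q ∈ Q, (S q).Finite) →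
      (∀ q ∈ Q, ∀ R ∈ S q, R.Sound q) → ∀ (r Δ B : ℕ) [NeZero r],
      ∃ c : ℝ, 0 < c ∧ ∀ (V E : Type) [Fintype V] [Fintype E] [DecidableEq V] [DecidableEq E]
        (src tgt : E → V), Connected src tgt → (∀ v, (inc src tgt v).card ≤ Δ) →
        ∀ w : ℕ, ¬ HasTreeDec src tgt w → ∀ s : V → ZMod r, ∑ v, s v ≠ 0 →
        (∀ q ∈ Q, Nat.Coprime q (addOrderOf (∑ v, s v))) →
        ∀ (X : Type) (i : E × ZMod r → X), Function.Injective i → ∀ F : List (List (X × Bool)),
        Above i (tseitin src tgt r s) B F → ∀ (d l : ℕ) (L : Fin l → Form X),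
        (∀ τ : Fin l → ℕ, MixedRefutes Q S d F τ L →
          Real.exp (c * (w : ℝ) ^ (c / (d + 1))) ≤ size L) ∧
        ∀ q ∈ Q, Refutes (S q) d F L → Real.exp (c * (w : ℝ) ^ (c / (d + 1))) ≤ size L) ∧
    (∀ Q : Finset ℕ, (∀ q ∈ Q, q.Prime) → ∀ S : ℕ → Set Rule, (∀ q ∈ Q, (S q).Finite) →
      (∀ q ∈ Q, ∀ R ∈ S q, R.Sound q) →
      ∀ (J : Type) [Fintype J] [DecidableEq J] (r : J → ℕ) [∀ j, NeZero (r j)] (Δ : ℕ),
      ∃ c : ℝ, 0 < c ∧ ∀ (V E : Type) [Fintype V] [Fintype E] [DecidableEq V] [DecidableEq E]
        (src tgt : E → V), Connected src tgt → (∀ v, (inc src tgt v).card ≤ Δ) →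
        ∀ w : ℕ, ¬ HasTreeDec src tgt w → ∀ s : ∀ j, V → ZMod (r j), (∀ j, ∑ v, s j v ≠ 0) →
        (∃ j, ∀ q ∈ Q, Nat.Coprime q (addOrderOf (∑ v, s j v))) →
        ∀ (d l : ℕ) (L : Fin l → Form (Σ j, E × ZMod (r j))),
        (∀ τ : Fin l → ℕ, MixedRefutes Q S d (allCNF src tgt r s) τ L →
          Real.exp (c * (w : ℝ) ^ (c / (d + 1))) ≤ size L) ∧
        ∀ q ∈ Q, Refutes (S q) d (allCNF src tgt r s) L →
          Real.exp (c * (w : ℝ) ^ (c / (d + 1))) ≤ size L) ∧
    (∀ (V E : Type) [Fintype V] [Fintype E] [DecidableEq V] [DecidableEq E] (src tgt : E → V)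
      (Δ : ℕ), (∀ v, (inc src tgt v).card ≤ Δ) →
      (∀ (r : ℕ) [NeZero r] (s : V → ZMod r), 2 ≤ r → ∑ v, s v ≠ 0 →
        Above id (tseitin src tgt r s) (max r Δ) (tseitinCNF src tgt r s) ∧
        (tseitinCNF src tgt r s).length ≤
          (r ^ 2 + 1) * Fintype.card E + r ^ Δ * Fintype.card V ∧
        ∀ x : E × ZMod r → Bool, ∃ D ∈ tseitinCNF src tgt r s, ∀ l ∈ D, x l.1 ≠ l.2) ∧
      ∀ (J : Type) [Fintype J] [DecidableEq J] (r : J → ℕ) [∀ j, NeZero (r j)]
        (s : ∀ j, V → ZMod (r j)), (∀ j, 2 ≤ r j) → (∀ j, ∑ v, s j v ≠ 0) →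
        (∀ D ∈ allCNF src tgt r s, D.length ≤ ∑ j, max (r j) Δ) ∧
        (allCNF src tgt r s).length ≤
          ∏ j, ((r j ^ 2 + 1) * Fintype.card E + r j ^ Δ * Fintype.card V) ∧
        ∀ x : (Σ j, E × ZMod (r j)) → Bool,
          ∃ D ∈ allCNF src tgt r s, ∀ l ∈ D, x l.1 ≠ l.2) ∧
    ∀ (N : ℕ) [NeZero N], Connected (torusSrc N) (torusTgt N) ∧
      (∀ v, (inc (torusSrc N) (torusTgt N) v).card ≤ 4) ∧
      ¬ HasTreeDec (torusSrc N) (torusTgt N) (N - 1) := by
  have hR : ∀ r', 2 ≤ r' → Pool.Agent.MP_9cec2c_lc.Flat.RMT2 r' :=
    fun r' hr' => Pool.Agent.MP_9cec2c_lc.Flat.Herm.rmt_main r' hr'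
  obtain ⟨S₀, hS₀⟩ : ∃ S₀ : ℕ → Set Rule, S₀ = fun q => stdRules q ∪
    (insert Pool.Agent.MP_9cec2c_lc.TU.kN (Pool.Agent.MP_9cec2c_lc.CE.ceRules q) ∪
      (sideRules q ∪ Pool.Agent.MP_9cec2c_lc.TY.tyRules)) := ⟨_, rfl⟩
  have hstd : ∀ q, stdRules q ⊆ S₀ q := by
    intro q
    rw [hS₀]
    exact Set.subset_union_left
  have hce : ∀ q, insert Pool.Agent.MP_9cec2c_lc.TU.kN
      (Pool.Agent.MP_9cec2c_lc.CE.ceRules q) ⊆ S₀ q := by
    intro q
    rw [hS₀]
    exact Set.subset_union_left.trans Set.subset_union_right
  have hside : ∀ q, sideRules q ⊆ S₀ q := by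
    intro q
    rw [hS₀]
    exact (Set.subset_union_left.trans Set.subset_union_right).trans Set.subset_union_right
  have hty : ∀ q, Pool.Agent.MP_9cec2c_lc.TY.tyRules ⊆ S₀ q := by
    intro q
    rw [hS₀]
    exact (Set.subset_union_right.trans Set.subset_union_right).trans Set.subset_union_right
  refine ⟨⟨S₀, fun q hq => ⟨?_, ?_, ?_, ?_⟩, ?_, ?_, ?_, ?_⟩, ?_, ?_, ?_,
    fun N _ => ⟨torus_conn, torus_deg, torus_tw⟩⟩
  · rw [hS₀]
    exact (stdRules_finite q).union
      (((Pool.Agent.MP_9cec2c_lc.CE.ceRules_finite q).insert _).union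
        ((sideRules_finite q).union Pool.Agent.MP_9cec2c_lc.TY.tyRules_finite))
  · have : Fact q.Prime := ⟨hq⟩
    rw [hS₀]
    rintro R (hR' | (rfl | hR') | hR' | hR')
    · exact stdRules_sound q R hR'
    · exact Pool.Agent.MP_9cec2c_lc.TU.kN_sound q
    · exact Pool.Agent.MP_9cec2c_lc.CE.ceRules_sound q R hR'
    · exact sideRules_sound q R hR'
    · exact Pool.Agent.MP_9cec2c_lc.TY.tyRules_sound q R hR'
  · intro V _ Φ φ d hΦ hφ hd h
    obtain ⟨l, L, hL, hi⟩ := complete hq.pos (fun ψ hψ => (hΦ ψ hψ).1) hφ
      (fun ψ hψ => (hΦ ψ hψ).2) hd h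
    exact ⟨l, L, hL.mono_rules (hstd q), hi⟩
  · intro r Δ _
    obtain ⟨C, hC⟩ := Pool.Agent.MP_9cec2c_lc.TU.easy_tseitin q hq r Δ
    refine ⟨C, fun V E _ _ _ _ src tgt hΔ s hs => ?_⟩
    obtain ⟨l, L, hL, hi, hsize⟩ := hC V E src tgt hΔ s hs
    exact ⟨l, L, hL.mono_rules (hce q), hi, hsize⟩
  · intro r Δ _
    obtain ⟨C, hC⟩ := Pool.Agent.MP_9cec2c_lc.TY.easy_tw r Δ
    refine ⟨C, fun V E _ _ _ _ src tgt hΔ w hw s hs D hD => ?_⟩
    obtain ⟨l, L, hL, hi, hc, hsize⟩ := hC V E src tgt hΔ w hw s hs D hD
    exact ⟨l, L, fun q _ => hL.mono_rules (hty q), hi, hc, hsize⟩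
  · intro Q hQ0 hQ S hS r Δ _ ι V E _ _ _ _ src tgt hconn hΔ s hs
    exact Pool.Agent.MP_9cec2c_lc.TY.classify Q hQ hQ0 hR (fun q hq => (hS q hq).1)
      (fun q hq => (hS q hq).2.2) (fun q hq => (hce q).trans (hS q hq).2.1)
      (fun q hq => (hty q).trans (hS q hq).2.1) r Δ ι V E src tgt hconn hΔ s hs
  · intro Q hQ0 hQ J _ _ r _ Δ
    exact easy_all Q hQ hQ0 (fun q _ => hside q) J r Δ
  · intro Q hQ S hS hsound r _ d K
    obtain ⟨d', N₀, h⟩ := Pool.Agent.MP_9cec2c_lc.TY.hierarchy Q hQ hR hS hsound r d K
    refine ⟨d', N₀, fun N _ hN s hs hcop => ?_⟩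
    obtain ⟨l, L, hL, hi, hc, hlow⟩ := h N hN s hs hcop
    exact ⟨l, L, fun q _ => hL.mono_rules (hty q), hi, hc, hlow⟩
  · intro Q hQ S hS hsound r Δ B _
    obtain ⟨c, hc, h⟩ := mx_allF Q hQ r Δ B hR hS hsound
    refine ⟨c, hc, fun V E _ _ _ _ src tgt hconn hΔ w hw s hs hcop X i hi F hF d l L => ?_⟩
    have h1 := h V E src tgt hconn hΔ w hw s hs hcop X i hi F hF d l
    exact ⟨fun τ hL => h1 τ L hL,
      fun q hq hL => h1 _ L (mixedRefutes_of_refutes hq subset_rfl hL)⟩
  · intro Q hQ S hS hsound J _ _ r _ Δ
    obtain ⟨c, hc, h⟩ := hard_all Q hQ hR hS hsound J r Δ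
    refine ⟨c, hc, fun V E _ _ _ _ src tgt hconn hΔ w hw s hs hj d l L => ?_⟩
    have h1 := h V E src tgt hconn hΔ w hw s hs hj d l
    exact ⟨fun τ hL => h1 τ L hL,
      fun q hq hL => h1 _ L (mixedRefutes_of_refutes hq subset_rfl hL)⟩
  · intro V E _ _ _ _ src tgt Δ hΔ
    refine ⟨fun r _ s hr hs => ⟨above_self hr hΔ s, tseitin_length hΔ, tseitin_unsat hs⟩,
      fun J _ _ r _ s hr hs => ⟨all_width hr hΔ, all_length hΔ, all_unsat hs⟩⟩

end Pool.Agent.Results.MP_9cec2c_lc.TseitinTreewidth
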